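import Pool.Agent.Y193.HQ.Cover

/-!
# MP_6f2a8f_ag, Q1: disproof

There is a closed three-dimensional complex submanifold `X` of `ℂ⁸` such that any two points of
`X` lie on the image of one entire curve `ℂ → X` and whose fundamental group is the integer
Heisenberg group, which has no commutative subgroup of finite index.

`X` is the image of eight theta-like entire functions on `ℂ³` which are invariant under the
integer Heisenberg group acting by
`(a, b, c) (x, y, z) = (x + a, y + b, z + c + a y)` and which separate the orbits.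
-/

noncomputable section

namespace Pool.Agent.Results.MP_6f2a8f_ag.HeisenbergQuotient

open Pool.Agent.Y193.HQ

/-- `X` is a closed complex submanifold of `ℂ^N` of dimension `d`: a closed subset, and near each
of its points (in an open set `O`) it is the bijective image of an open set `V` of `ℂ^d` under a
holomorphic map `φ` which has a holomorphic left inverse `ψ` defined on `O`. -/
def IsClosedComplexSubmanifold (N d : ℕ) (X : Set (Fin N → ℂ)) : Prop :=
  IsClosed X ∧ ∀ p ∈ X, ∃ (O : Set (Fin N → ℂ)) (V : Set (Fin d → ℂ))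
    (φ : (Fin d → ℂ) → Fin N → ℂ) (ψ : (Fin N → ℂ) → Fin d → ℂ),
    IsOpen O ∧ IsOpen V ∧ p ∈ O ∧ DifferentiableOn ℂ φ V ∧ DifferentiableOn ℂ ψ O ∧
      φ '' V = X ∩ O ∧ ∀ v ∈ V, ψ (φ v) = v

/-- Any two points of `X` lie on the image of one entire curve contained in `X`. -/
def JoinedByEntireCurves (N : ℕ) (X : Set (Fin N → ℂ)) : Prop :=
  ∀ x ∈ X, ∀ y ∈ X, ∃ f : ℂ → Fin N → ℂ, Differentiable ℂ f ∧ (∀ t, f t ∈ X) ∧
    f 0 = x ∧ f 1 = y

/-- Q1 of MP_6f2a8f_ag is false: an elliptically connected (by single entire curves) closed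
complex submanifold of `ℂ⁸` of dimension `3` whose fundamental group is the integer Heisenberg
group, hence not almost abelian. -/
theorem result : ∃ X : Set (Fin 8 → ℂ), X.Nonempty ∧ IsClosedComplexSubmanifold 8 3 X ∧
    JoinedByEntireCurves 8 X ∧
    ∀ x : X, Nonempty (FundamentalGroup X x ≃* Heis) ∧
      ¬ VirtuallyAbelian (FundamentalGroup X x) := by
  refine ⟨Set.range Psi, ⟨Psi 0, 0, rfl⟩, ⟨isClosed_range, ?_⟩,
    fun x hx y hy => entire x y hx hy, ?_⟩
  · rintro _ ⟨v, rfl⟩
    obtain ⟨O, V, ψ, hO, hV, hv, hd, him, hinv⟩ := chart v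
    refine ⟨O, V, Psi, ψ, hO, hV, ?_, Psi_differentiable.differentiableOn, hd, him, hinv⟩
    have : Psi v ∈ Psi '' V := ⟨v, hv, rfl⟩
    rw [him] at this
    exact this.2
  · intro x
    obtain ⟨e⟩ := exists_equiv x
    exact ⟨⟨e⟩, not_virtuallyAbelian_of_equiv e⟩

end Pool.Agent.Results.MP_6f2a8f_ag.HeisenbergQuotient
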